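import Pool.Agent.H141R2.LinesGap
set_option autoImplicit false

/-! Distinct difference vectors of point sets with no three collinear points. -/

namespace Pool.Agent.Results.MP_fa3087_co.NearTight

/-- A finite point set in `ℝ^d` (every `d`, in particular `d = 2`) with `n ≥ n₀` points and no three
points on a line determines at least `n * exp (c * √(log n / log log n))` distinct difference
vectors; `c > 0` and `n₀` are absolute constants. -/
theorem result : ∃ c : ℝ, 0 < c ∧ ∃ n₀ : ℕ, ∀ (d n : ℕ), n₀ ≤ n →
    ∀ P : Finset (EuclideanSpace ℝ (Fin d)), P.card = n →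
      (∀ a ∈ P, ∀ b ∈ P, ∀ c ∈ P, a ≠ b → a ≠ c → b ≠ c → ¬ Collinear ℝ {a, b, c}) →
      (n : ℝ) * Real.exp (c * Real.sqrt (Real.log n / Real.log (Real.log n)))
        ≤ (((P.offDiag.image (fun x => x.1 - x.2)).card : ℕ) : ℝ) := by
  have hlim : Filter.Tendsto (fun n : ℕ => Real.sqrt (Real.log n / Real.log (Real.log n)))
      Filter.atTop Filter.atTop := by
    have h1 : Filter.Tendsto (fun x : ℝ => x / Real.log x) Filter.atTop Filter.atTop := by
      have h2 : Filter.Tendsto (fun x : ℝ => Real.log x / x) Filter.atTop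
          (nhdsWithin 0 (Set.Ioi 0)) := by
        apply tendsto_nhdsWithin_iff.2
        refine ⟨?_, ?_⟩
        · have := Real.isLittleO_log_id_atTop
          exact this.tendsto_div_nhds_zero
        · filter_upwards [Filter.eventually_gt_atTop (1 : ℝ)] with x hx
          exact div_pos (Real.log_pos hx) (by linarith)
      have h3 := h2.inv_tendsto_nhdsGT_zero
      refine h3.congr' ?_
      filter_upwards with x
      simp
    have h4 : Filter.Tendsto (fun n : ℕ => Real.log (n : ℝ)) Filter.atTop Filter.atTop :=
      Real.tendsto_log_atTop.comp tendsto_natCast_atTop_atTop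
    exact Real.tendsto_sqrt_atTop.comp (h1.comp h4)
  have hlim2 : Filter.Tendsto (fun n : ℕ => Real.log (n : ℝ)) Filter.atTop Filter.atTop :=
    Real.tendsto_log_atTop.comp tendsto_natCast_atTop_atTop
  obtain ⟨n₀, hn₀⟩ := Filter.eventually_atTop.1
    ((hlim.eventually_ge_atTop 21000).and (hlim2.eventually_ge_atTop 16))
  refine ⟨1 / 10000, by norm_num, n₀, ?_⟩
  intro d n hn P hP hgen
  obtain ⟨h1, h2⟩ := hn₀ n hn
  have h3 := H141.Lines.diffs_ge (P := P) hgen (by rw [hP]; exact h2) (by rw [hP]; exact h1)
  rw [hP] at h3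
  exact h3

end Pool.Agent.Results.MP_fa3087_co.NearTight
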